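import Pool.Agent.P.MP_1ae9d9_co.Clean

/-!
Slivers at separated scales: no common points of parallel or non-concurrent slivers, and a point in
two flatter slivers through a common chain point is not relevant to the third.
-/

set_option autoImplicit false

open Filter Topology

namespace Pool.Agent.P.MP_1ae9d9_co

theorem par_ev {l : Filter ℝ} {k : ℕ} {a₁ a₂ Λ A₁ A₂ B : ℝ} {α₁ α₂ β₁ β₂ ε₁ ε₂ : ℝ → ℝ}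
    (ha : 0 ≤ a₁) (hΛ : a₁ + k ≤ Λ)
    (h₁ : Tendsto α₁ l (𝓝 A₁)) (h₂ : Tendsto α₂ l (𝓝 A₂))
    (g₁ : Tendsto β₁ l (𝓝 B)) (g₂ : Tendsto β₂ l (𝓝 B))
    (e₁ : Tendsto ε₁ l (𝓝 0)) (e₂ : Tendsto ε₂ l (𝓝 0)) (hA : A₁ - A₂ ≠ 0) :
    ∀ᶠ η in l, ∀ z, Sliver k a₁ (α₁ η) (β₁ η) (ε₁ η) Λ z →
      ¬ Sliver k a₂ (α₂ η) (β₂ η) (ε₂ η) Λ z := by
  have hF : Tendsto (fun η => (Λ ^ 2 + 1) * (ε₁ η + ε₂ η) + |β₁ η - β₂ η| * (Λ + 1) -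
      |α₁ η - α₂ η|) l (𝓝 ((Λ ^ 2 + 1) * (0 + 0) + |B - B| * (Λ + 1) - |A₁ - A₂|)) :=
    (((e₁.add e₂).const_mul _).add ((g₁.sub g₂).abs.mul_const _)).sub (h₁.sub h₂).abs
  have hneg : (Λ ^ 2 + 1) * (0 + 0) + |B - B| * (Λ + 1) - |A₁ - A₂| < 0 := by
    have := abs_pos.2 hA
    simp only [add_zero, mul_zero, sub_self, abs_zero, zero_mul]
    linarith
  filter_upwards [hF.eventually (gt_mem_nhds hneg)] with η hη z hz₁ hz₂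
  obtain ⟨p1, p2, p3⟩ := hz₁
  obtain ⟨-, -, q3⟩ := hz₂
  have hk : (0 : ℝ) ≤ k := by positivity
  have hz : |z.1| ≤ Λ + 1 := by rw [abs_le]; constructor <;> linarith
  have e : α₁ η - α₂ η = (off (α₂ η) (β₂ η) z - off (α₁ η) (β₁ η) z) - (β₁ η - β₂ η) * z.1 := by
    unfold off; ring
  have b1 : |α₁ η - α₂ η| ≤ |off (α₂ η) (β₂ η) z| + |off (α₁ η) (β₁ η) z| +
      |β₁ η - β₂ η| * |z.1| := by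
    rw [e, ← abs_mul]
    exact (abs_sub _ _).trans (add_le_add (abs_sub _ _) le_rfl)
  have b2 : |β₁ η - β₂ η| * |z.1| ≤ |β₁ η - β₂ η| * (Λ + 1) :=
    mul_le_mul_of_nonneg_left hz (abs_nonneg _)
  nlinarith

theorem tri_ev {l : Filter ℝ} {k : ℕ} {a₁ a₂ a₃ Λ A₁ A₂ A₃ B₁ B₂ B₃ : ℝ}
    {α₁ α₂ α₃ β₁ β₂ β₃ ε₁ ε₂ ε₃ : ℝ → ℝ}
    (h₁ : Tendsto α₁ l (𝓝 A₁)) (h₂ : Tendsto α₂ l (𝓝 A₂)) (h₃ : Tendsto α₃ l (𝓝 A₃))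
    (g₁ : Tendsto β₁ l (𝓝 B₁)) (g₂ : Tendsto β₂ l (𝓝 B₂)) (g₃ : Tendsto β₃ l (𝓝 B₃))
    (e₁ : Tendsto ε₁ l (𝓝 0)) (e₂ : Tendsto ε₂ l (𝓝 0)) (e₃ : Tendsto ε₃ l (𝓝 0))
    (hD : (A₁ - A₂) * (B₁ - B₃) - (A₁ - A₃) * (B₁ - B₂) ≠ 0) :
    ∀ᶠ η in l, ∀ z, Sliver k a₁ (α₁ η) (β₁ η) (ε₁ η) Λ z →
      Sliver k a₂ (α₂ η) (β₂ η) (ε₂ η) Λ z → ¬ Sliver k a₃ (α₃ η) (β₃ η) (ε₃ η) Λ z := by
  have hF : Tendsto (fun η => (Λ ^ 2 + 1) * (ε₁ η + ε₂ η) * |β₁ η - β₃ η| +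
      (Λ ^ 2 + 1) * (ε₁ η + ε₃ η) * |β₁ η - β₂ η| -
      |(α₁ η - α₂ η) * (β₁ η - β₃ η) - (α₁ η - α₃ η) * (β₁ η - β₂ η)|) l
      (𝓝 ((Λ ^ 2 + 1) * (0 + 0) * |B₁ - B₃| + (Λ ^ 2 + 1) * (0 + 0) * |B₁ - B₂| -
        |(A₁ - A₂) * (B₁ - B₃) - (A₁ - A₃) * (B₁ - B₂)|)) :=
    ((((e₁.add e₂).const_mul _).mul (g₁.sub g₃).abs).add
      (((e₁.add e₃).const_mul _).mul (g₁.sub g₂).abs)).sub
      (((h₁.sub h₂).mul (g₁.sub g₃)).sub ((h₁.sub h₃).mul (g₁.sub g₂))).abs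
  have hneg : (Λ ^ 2 + 1) * (0 + 0) * |B₁ - B₃| + (Λ ^ 2 + 1) * (0 + 0) * |B₁ - B₂| -
        |(A₁ - A₂) * (B₁ - B₃) - (A₁ - A₃) * (B₁ - B₂)| < 0 := by
    have := abs_pos.2 hD
    simp only [add_zero, mul_zero, zero_mul]
    linarith
  filter_upwards [hF.eventually (gt_mem_nhds hneg)] with η hη z hz₁ hz₂ hz₃
  obtain ⟨-, -, p⟩ := hz₁
  obtain ⟨-, -, q⟩ := hz₂
  obtain ⟨-, -, r⟩ := hz₃
  have e : (α₁ η - α₂ η) * (β₁ η - β₃ η) - (α₁ η - α₃ η) * (β₁ η - β₂ η) =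
      (off (α₂ η) (β₂ η) z - off (α₁ η) (β₁ η) z) * (β₁ η - β₃ η) -
      (off (α₃ η) (β₃ η) z - off (α₁ η) (β₁ η) z) * (β₁ η - β₂ η) := by
    unfold off; ring
  have b12 : |off (α₂ η) (β₂ η) z - off (α₁ η) (β₁ η) z| ≤ (Λ ^ 2 + 1) * (ε₁ η + ε₂ η) := by
    have := abs_sub (off (α₂ η) (β₂ η) z) (off (α₁ η) (β₁ η) z)
    linarith
  have b13 : |off (α₃ η) (β₃ η) z - off (α₁ η) (β₁ η) z| ≤ (Λ ^ 2 + 1) * (ε₁ η + ε₃ η) := by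
    have := abs_sub (off (α₃ η) (β₃ η) z) (off (α₁ η) (β₁ η) z)
    linarith
  have b : |(α₁ η - α₂ η) * (β₁ η - β₃ η) - (α₁ η - α₃ η) * (β₁ η - β₂ η)| ≤
      (Λ ^ 2 + 1) * (ε₁ η + ε₂ η) * |β₁ η - β₃ η| +
      (Λ ^ 2 + 1) * (ε₁ η + ε₃ η) * |β₁ η - β₂ η| := by
    rw [e]
    refine (abs_sub _ _).trans (add_le_add ?_ ?_)
    · rw [abs_mul]; exact mul_le_mul_of_nonneg_right b12 (abs_nonneg _)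
    · rw [abs_mul]; exact mul_le_mul_of_nonneg_right b13 (abs_nonneg _)
  linarith

theorem conc_ev {l : Filter ℝ} {k : ℕ} {a₁ a₂ a₃ Λ θ ζ B₁ B₂ B₃ : ℝ} {n : ℤ}
    {α₁ α₂ α₃ β₁ β₂ β₃ ρ₁ ρ₂ ε₃ : ℝ → ℝ} (hθ : 0 < θ) (hζ : ζ = a₃ + n)
    (g₁ : Tendsto β₁ l (𝓝 B₁)) (g₂ : Tendsto β₂ l (𝓝 B₂)) (g₃ : Tendsto β₃ l (𝓝 B₃))
    (r₁ : Tendsto ρ₁ l (𝓝 0)) (r₂ : Tendsto ρ₂ l (𝓝 0)) (e₃ : Tendsto ε₃ l (𝓝 0))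
    (hpos : ∀ᶠ η in l, 0 < ε₃ η) (hB : B₁ - B₂ ≠ 0)
    (c₁ : ∀ η, α₁ η + β₁ η * ζ + ρ₁ η * ε₃ η * ζ ^ 2 = α₃ η + β₃ η * ζ + ε₃ η * ζ ^ 2)
    (c₂ : ∀ η, α₂ η + β₂ η * ζ + ρ₂ η * ε₃ η * ζ ^ 2 = α₃ η + β₃ η * ζ + ε₃ η * ζ ^ 2) :
    ∀ᶠ η in l, ∀ z, Sliver k a₁ (α₁ η) (β₁ η) (ρ₁ η * ε₃ η) Λ z →
      Sliver k a₂ (α₂ η) (β₂ η) (ρ₂ η * ε₃ η) Λ z → ¬ Rel k a₃ (α₃ η) (β₃ η) (ε₃ η) θ Λ z := by
  set M : ℝ := Λ ^ 2 + 1 + ζ ^ 2 with hM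
  set δ : ℝ := |B₁ - B₂| / 2 with hδ
  have hδpos : 0 < δ := by have := abs_pos.2 hB; positivity
  have hG : Tendsto (fun η => (ρ₁ η + ρ₂ η) * M / δ) l (𝓝 0) := by
    simpa using ((r₁.add r₂).mul_const M).div_const δ
  have t1 : Tendsto (fun η => (ρ₁ η + ρ₂ η) * M / δ * ε₃ η) l (𝓝 0) := by
    simpa using hG.mul e₃
  have t2 : Tendsto (fun η => ρ₁ η * M + |β₁ η - β₃ η| * ((ρ₁ η + ρ₂ η) * M / δ)) l (𝓝 0) := by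
    simpa using (r₁.mul_const M).add ((g₁.sub g₃).abs.mul hG)
  have t3 : Tendsto (fun η => |β₁ η - β₂ η|) l (𝓝 |B₁ - B₂|) := (g₁.sub g₂).abs
  have hδlt : δ < |B₁ - B₂| := by have := abs_pos.2 hB; rw [hδ]; linarith
  filter_upwards [hpos, t1.eventually (gt_mem_nhds hθ),
    t1.eventually (gt_mem_nhds (by norm_num : (0 : ℝ) < 1 / 2)), t2.eventually (gt_mem_nhds hθ),
    t3.eventually (lt_mem_nhds hδlt)] with η hε u1 u2 u3 u4 z hz₁ hz₂ hz₃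
  obtain ⟨-, -, p⟩ := hz₁
  obtain ⟨-, -, q⟩ := hz₂
  obtain ⟨⟨w1, w2, -⟩, hnear⟩ := hz₃
  set P : ℝ := α₃ η + β₃ η * ζ + ε₃ η * ζ ^ 2 with hP
  have hK : 0 < Λ ^ 2 + 1 := by positivity
  have hρ₁ : 0 ≤ ρ₁ η * ε₃ η := by
    by_contra h
    have := mul_neg_of_pos_of_neg hK (not_le.1 h)
    linarith [abs_nonneg (off (α₁ η) (β₁ η) z)]
  have hρ₂ : 0 ≤ ρ₂ η * ε₃ η := by
    by_contra h
    have := mul_neg_of_pos_of_neg hK (not_le.1 h)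
    linarith [abs_nonneg (off (α₂ η) (β₂ η) z)]
  have d1 : |(z.2 - P) - β₁ η * (z.1 - ζ)| ≤ ρ₁ η * ε₃ η * M := by
    have e : (z.2 - P) - β₁ η * (z.1 - ζ) = off (α₁ η) (β₁ η) z - ρ₁ η * ε₃ η * ζ ^ 2 := by
      rw [hP, ← c₁ η]; unfold off; ring
    rw [e]
    refine (abs_sub _ _).trans ?_
    rw [abs_of_nonneg (mul_nonneg hρ₁ (sq_nonneg ζ)), hM]
    linarith
  have d2 : |(z.2 - P) - β₂ η * (z.1 - ζ)| ≤ ρ₂ η * ε₃ η * M := by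
    have e : (z.2 - P) - β₂ η * (z.1 - ζ) = off (α₂ η) (β₂ η) z - ρ₂ η * ε₃ η * ζ ^ 2 := by
      rw [hP, ← c₂ η]; unfold off; ring
    rw [e]
    refine (abs_sub _ _).trans ?_
    rw [abs_of_nonneg (mul_nonneg hρ₂ (sq_nonneg ζ)), hM]
    linarith
  have d3 : |β₁ η - β₂ η| * |z.1 - ζ| ≤ (ρ₁ η + ρ₂ η) * M * ε₃ η := by
    have e : (β₁ η - β₂ η) * (z.1 - ζ) =
        ((z.2 - P) - β₂ η * (z.1 - ζ)) - ((z.2 - P) - β₁ η * (z.1 - ζ)) := by ring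
    rw [← abs_mul, e]
    refine (abs_sub _ _).trans ?_
    linarith
  have d4 : |z.1 - ζ| ≤ (ρ₁ η + ρ₂ η) * M / δ * ε₃ η := by
    have : δ * |z.1 - ζ| ≤ (ρ₁ η + ρ₂ η) * M * ε₃ η :=
      (mul_le_mul_of_nonneg_right u4.le (abs_nonneg _)).trans d3
    rw [div_mul_eq_mul_div, le_div_iff₀ hδpos]
    linarith
  have d5 : |z.1 - ζ| < 1 / 2 := lt_of_le_of_lt d4 u2
  rw [abs_lt, hζ] at d5
  have n0 : (-1 : ℝ) < n := by linarith [d5.1, d5.2]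
  have n1 : (n : ℝ) < k := by linarith [d5.1, d5.2]
  have n0' : (-1 : ℤ) < n := by exact_mod_cast n0
  have n1' : n < (k : ℤ) := by exact_mod_cast n1
  obtain ⟨t, rfl⟩ := Int.eq_ofNat_of_zero_le (by omega : 0 ≤ n)
  apply hnear t (by exact_mod_cast n1')
  have hζ' : ζ = a₃ + t := by rw [hζ]; simp
  rw [← hζ']
  refine ⟨lt_of_le_of_lt d4 u1, ?_⟩
  have e : off (α₃ η) (β₃ η) z - ε₃ η * ζ ^ 2 =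
      ((z.2 - P) - β₁ η * (z.1 - ζ)) + (β₁ η - β₃ η) * (z.1 - ζ) := by
    rw [hP]; unfold off; ring
  rw [e]
  refine lt_of_le_of_lt (abs_add_le _ _) ?_
  rw [abs_mul]
  have d6 : |β₁ η - β₃ η| * |z.1 - ζ| ≤ |β₁ η - β₃ η| * ((ρ₁ η + ρ₂ η) * M / δ * ε₃ η) :=
    mul_le_mul_of_nonneg_left d4 (abs_nonneg _)
  have d7 := mul_lt_mul_of_pos_right u3 hε
  nlinarith

end Pool.Agent.P.MP_1ae9d9_co
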