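import Pool.Agent.P.MP_1ae9d9_co.Defs

/-!
A flat parabolic chain with no relevant point yields a hole.
-/

set_option autoImplicit false

open Classical

namespace Pool.Agent.P.MP_1ae9d9_co

/-- Vertical offset from the line `y = α + β x`. -/
def off (α β : ℝ) (z : ℝ × ℝ) : ℝ := z.2 - α - β * z.1

/-- `z` is close to the point of abscissa `c` on the parabola `y = α + β x + ε x²`. -/
def Near (α β ε θ c : ℝ) (z : ℝ × ℝ) : Prop :=
  |z.1 - c| < θ ∧ |off α β z - ε * c ^ 2| < θ * ε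

/-- The thin sliver around the chain. -/
def Sliver (k : ℕ) (a α β ε Λ : ℝ) (z : ℝ × ℝ) : Prop :=
  a - 1 / 2 ≤ z.1 ∧ z.1 ≤ a + k - 1 / 2 ∧ |off α β z| ≤ (Λ ^ 2 + 1) * ε

/-- `z` lies in the sliver, but is not close to any of the `k` points of the chain. -/
def Rel (k : ℕ) (a α β ε θ Λ : ℝ) (z : ℝ × ℝ) : Prop :=
  Sliver k a α β ε Λ z ∧ ∀ t : ℕ, t < k → ¬ Near α β ε θ (a + t) z

/-- The tangent functional at abscissa `c`. -/
def tang (α β ε c : ℝ) (z : ℝ × ℝ) : ℝ := off α β z - 2 * ε * c * z.1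

theorem tang_near {α β ε θ Λ c c' : ℝ} (hε : 0 < ε) (hc : 0 ≤ c) (hcΛ : c ≤ Λ)
    (hθΛ : θ * (1 + 2 * Λ) ≤ 1 / 2) {z : ℝ × ℝ} (hz : Near α β ε θ c' z) :
    |tang α β ε c z - (ε * (c' - c) ^ 2 - ε * c ^ 2)| < ε / 2 := by
  obtain ⟨h1, h2⟩ := hz
  have e : tang α β ε c z - (ε * (c' - c) ^ 2 - ε * c ^ 2) =
      (off α β z - ε * c' ^ 2) - 2 * ε * c * (z.1 - c') := by
    unfold tang; ring
  rw [e]
  have hθ : 0 < θ := lt_of_le_of_lt (abs_nonneg _) h1
  have h3 : |2 * ε * c * (z.1 - c')| ≤ 2 * ε * Λ * θ := by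
    rw [abs_mul, abs_of_nonneg (by positivity : 0 ≤ 2 * ε * c)]
    exact mul_le_mul (by nlinarith) h1.le (abs_nonneg _) (by nlinarith)
  calc |(off α β z - ε * c' ^ 2) - 2 * ε * c * (z.1 - c')|
      ≤ |off α β z - ε * c' ^ 2| + |2 * ε * c * (z.1 - c')| := abs_sub _ _
    _ < θ * ε + 2 * ε * Λ * θ := by linarith
    _ = ε * (θ * (1 + 2 * Λ)) := by ring
    _ ≤ ε * (1 / 2) := mul_le_mul_of_nonneg_left hθΛ hε.le
    _ = ε / 2 := by ring

theorem tang_lt {α β ε θ Λ a : ℝ} (hε : 0 < ε) (ha : 0 ≤ a) {t t' : ℕ} (hcΛ : a + t ≤ Λ)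
    (hθΛ : θ * (1 + 2 * Λ) ≤ 1 / 2) (htt : t' ≠ t) {z z' : ℝ × ℝ}
    (hz : Near α β ε θ (a + t) z) (hz' : Near α β ε θ (a + t') z') :
    tang α β ε (a + t) z < tang α β ε (a + t) z' := by
  have hc : 0 ≤ a + (t : ℝ) := by positivity
  have h1 := tang_near hε hc hcΛ hθΛ hz
  have h2 := tang_near hε hc hcΛ hθΛ hz'
  have h3 : (1 : ℝ) ≤ (a + t' - (a + t)) ^ 2 := by
    have : (a + t' - (a + t) : ℝ) = (((t' : ℤ) - (t : ℤ) : ℤ) : ℝ) := by push_cast; ring
    rw [this]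
    have hne : ((t' : ℤ) - (t : ℤ)) ≠ 0 := by omega
    have : (1 : ℤ) ≤ ((t' : ℤ) - (t : ℤ)) ^ 2 := by
      have := sq_pos_of_ne_zero hne
      omega
    exact_mod_cast this
  rw [abs_lt] at h1 h2
  have h4 : ε * 1 ≤ ε * (a + t' - (a + t)) ^ 2 := mul_le_mul_of_nonneg_left h3 hε.le
  simp only [sub_self] at h1
  nlinarith [h1.2, h2.1]

theorem tang_comb (α β ε c : ℝ) (y y' : ℝ × ℝ) {u v : ℝ} (huv : u + v = 1) :
    tang α β ε c (u • y + v • y') = u * tang α β ε c y + v * tang α β ε c y' := by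
  simp only [tang, off, Prod.fst_add, Prod.snd_add, Prod.smul_fst, Prod.smul_snd, smul_eq_mul]
  have : v = 1 - u := by linarith
  subst this
  ring

theorem convex_gt (α β ε c m : ℝ) : Convex ℝ {y : ℝ × ℝ | m < tang α β ε c y} := by
  intro y hy y' hy' u v hu hv huv
  simp only [Set.mem_ofPred_eq] at hy hy' ⊢
  rw [tang_comb α β ε c y y' huv]
  rcases eq_or_lt_of_le hu with h | h
  · have : v = 1 := by linarith
    rw [← h, this]; linarith
  · have h1 : u * m < u * tang α β ε c y := mul_lt_mul_of_pos_left hy h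
    have h2 : v * m ≤ v * tang α β ε c y' := mul_le_mul_of_nonneg_left hy'.le hv
    have : u * m + v * m = m := by rw [← add_mul, huv, one_mul]
    linarith

theorem convex_gt_or (α β ε c : ℝ) (z : ℝ × ℝ) :
    Convex ℝ {y : ℝ × ℝ | tang α β ε c z < tang α β ε c y ∨ y = z} := by
  intro y hy y' hy' u v hu hv huv
  simp only [Set.mem_ofPred_eq] at hy hy' ⊢
  have hm : u * tang α β ε c z + v * tang α β ε c z = tang α β ε c z := by
    rw [← add_mul, huv, one_mul]
  rcases hy with hy | rfl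
  · rcases eq_or_lt_of_le hu with h | h
    · have : v = 1 := by linarith
      rw [← h, this]
      simpa using hy'
    · left
      rw [tang_comb α β ε c y y' huv]
      have h1 : u * tang α β ε c z < u * tang α β ε c y := mul_lt_mul_of_pos_left hy h
      have h2 : v * tang α β ε c z ≤ v * tang α β ε c y' := by
        apply mul_le_mul_of_nonneg_left _ hv
        rcases hy' with hy' | rfl
        · exact hy'.le
        · exact le_rfl
      linarith
  · rcases hy' with hy' | rfl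
    · rcases eq_or_lt_of_le hv with h | h
      · have : u = 1 := by linarith
        rw [← h, this]
        simp
      · left
        rw [tang_comb α β ε c y y' huv]
        have h2 : v * tang α β ε c y < v * tang α β ε c y' := mul_lt_mul_of_pos_left hy' h
        linarith
    · right
      rw [← add_smul, huv, one_smul]

theorem convex_sliver (k : ℕ) (a α β ε Λ : ℝ) : Convex ℝ {z | Sliver k a α β ε Λ z} := by
  intro y hy y' hy' u v hu hv huv
  simp only [Set.mem_ofPred_eq, Sliver] at hy hy' ⊢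
  obtain ⟨h1, h2, h3⟩ := hy
  obtain ⟨h1', h2', h3'⟩ := hy'
  have e : off α β (u • y + v • y') = u * off α β y + v * off α β y' := by
    have := tang_comb α β 0 0 y y' huv
    simpa [tang] using this
  refine ⟨?_, ?_, ?_⟩
  · simp only [Prod.fst_add, Prod.smul_fst, smul_eq_mul]
    have : u * (a - 1 / 2) + v * (a - 1 / 2) = a - 1 / 2 := by rw [← add_mul, huv, one_mul]
    linarith [mul_le_mul_of_nonneg_left h1 hu, mul_le_mul_of_nonneg_left h1' hv]
  · simp only [Prod.fst_add, Prod.smul_fst, smul_eq_mul]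
    have : u * (a + k - 1 / 2) + v * (a + k - 1 / 2) = a + k - 1 / 2 := by
      rw [← add_mul, huv, one_mul]
    linarith [mul_le_mul_of_nonneg_left h2 hu, mul_le_mul_of_nonneg_left h2' hv]
  · rw [e]
    calc |u * off α β y + v * off α β y'| ≤ |u * off α β y| + |v * off α β y'| := abs_add_le _ _
      _ = u * |off α β y| + v * |off α β y'| := by
        rw [abs_mul, abs_mul, abs_of_nonneg hu, abs_of_nonneg hv]
      _ ≤ u * ((Λ ^ 2 + 1) * ε) + v * ((Λ ^ 2 + 1) * ε) :=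
        add_le_add (mul_le_mul_of_nonneg_left h3 hu) (mul_le_mul_of_nonneg_left h3' hv)
      _ = (Λ ^ 2 + 1) * ε := by rw [← add_mul, huv, one_mul]

theorem sliver_of_near {k : ℕ} {a α β ε θ Λ : ℝ} (hε : 0 < ε) (ha : 0 ≤ a) (hΛ : a + k ≤ Λ)
    (hθΛ : θ * (1 + 2 * Λ) ≤ 1 / 2) {t : ℕ} (ht : t < k) {z : ℝ × ℝ}
    (hz : Near α β ε θ (a + t) z) : Sliver k a α β ε Λ z := by
  obtain ⟨h1, h2⟩ := hz
  have hθ : 0 < θ := lt_of_le_of_lt (abs_nonneg _) h1
  have ht' : (t : ℝ) + 1 ≤ k := by exact_mod_cast ht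
  have ht0 : (0 : ℝ) ≤ t := by positivity
  have hΛ0 : 0 ≤ Λ := by linarith
  have hθ2 : θ ≤ 1 / 2 := by nlinarith
  rw [abs_lt] at h1 h2
  refine ⟨by linarith [h1.1], by linarith [h1.2], ?_⟩
  have hc : (a + t) ^ 2 ≤ Λ ^ 2 := by
    apply pow_le_pow_left₀ (by positivity); linarith
  have hc' : ε * (a + t) ^ 2 ≤ ε * Λ ^ 2 := mul_le_mul_of_nonneg_left hc hε.le
  have hc0 : 0 ≤ ε * (a + t) ^ 2 := by positivity
  have hθε : θ * ε ≤ ε := by nlinarith
  rw [abs_le]
  constructor <;> nlinarith [h2.1, h2.2, sq_nonneg Λ]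

theorem hole_of_clean {k : ℕ} {a α β ε θ Λ : ℝ} (hε : 0 < ε) (ha : 0 ≤ a) (hΛ : a + k ≤ Λ)
    (hθΛ : θ * (1 + 2 * Λ) ≤ 1 / 2) (S : Finset (ℝ × ℝ))
    (hS : ∀ t : ℕ, t < k → ∃ p ∈ S, Near α β ε θ (a + t) p)
    (hclean : ∀ p ∈ S, ¬ Rel k a α β ε θ Λ p) : HasHole k S := by
  have hex : ∀ t : Fin k, ∃ z ∈ S, Near α β ε θ (a + (t : ℕ)) z ∧
      ∀ y ∈ S, Near α β ε θ (a + (t : ℕ)) y →
        tang α β ε (a + (t : ℕ)) y ≤ tang α β ε (a + (t : ℕ)) z := by
    intro t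
    obtain ⟨p, hp, hpn⟩ := hS t t.2
    obtain ⟨z, hz, hmax⟩ := Finset.exists_max_image (S.filter (Near α β ε θ (a + (t : ℕ))))
      (tang α β ε (a + (t : ℕ))) ⟨p, Finset.mem_filter.2 ⟨hp, hpn⟩⟩
    rw [Finset.mem_filter] at hz
    exact ⟨z, hz.1, hz.2, fun y hy hyn => hmax y (Finset.mem_filter.2 ⟨hy, hyn⟩)⟩
  choose z hzS hzn hzmax using hex
  have hle : ∀ t : Fin k, a + ((t : ℕ) : ℝ) ≤ Λ := by
    intro t
    have : ((t : ℕ) : ℝ) ≤ k := by exact_mod_cast t.2.le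
    linarith
  have hlt : ∀ t t' : Fin k, t' ≠ t →
      tang α β ε (a + (t : ℕ)) (z t) < tang α β ε (a + (t : ℕ)) (z t') := by
    intro t t' h
    exact tang_lt hε ha (hle t) hθΛ (fun h' => h (Fin.ext h')) (hzn t) (hzn t')
  have hinj : Function.Injective z := by
    intro t t' h
    by_contra hne
    have := hlt t t' (Ne.symm hne)
    rw [h] at this
    exact lt_irrefl _ this
  refine ⟨Finset.univ.image z, ?_, ?_, ?_, ?_⟩
  · intro p hp
    obtain ⟨t, -, rfl⟩ := Finset.mem_image.1 hp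
    exact hzS t
  · rw [Finset.card_image_of_injective _ hinj]; simp
  · rw [convexIndependent_set_iff_notMem_convexHull_sdiff]
    intro x hx hmem
    obtain ⟨t, -, rfl⟩ := Finset.mem_image.1 (Finset.mem_coe.1 hx)
    have hsub : ((Finset.univ.image z : Finset (ℝ × ℝ)) : Set (ℝ × ℝ)) \ {z t} ⊆
        {y : ℝ × ℝ | tang α β ε (a + (t : ℕ)) (z t) < tang α β ε (a + (t : ℕ)) y} := by
      intro y hy
      obtain ⟨t', -, rfl⟩ := Finset.mem_image.1 (Finset.mem_coe.1 hy.1)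
      exact hlt t t' fun h => hy.2 (by rw [h]; rfl)
    have := convexHull_min hsub (convex_gt _ _ _ _ _) hmem
    simp only [Set.mem_ofPred_eq] at this
    exact lt_irrefl _ this
  · apply Set.Subset.antisymm
    · rintro y ⟨hy, hyS⟩
      have hsl : Sliver k a α β ε Λ y := by
        refine convexHull_min (t := {z | Sliver k a α β ε Λ z}) ?_ (convex_sliver _ _ _ _ _ _) hy
        intro p hp
        obtain ⟨t, -, rfl⟩ := Finset.mem_image.1 (Finset.mem_coe.1 hp)
        exact sliver_of_near hε ha hΛ hθΛ t.2 (hzn t)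
      have hn : ∃ t : ℕ, t < k ∧ Near α β ε θ (a + t) y := by
        by_contra hcon
        push Not at hcon
        exact hclean y hyS ⟨hsl, hcon⟩
      obtain ⟨t, ht, hyn⟩ := hn
      have h1 := hzmax ⟨t, ht⟩ y hyS hyn
      have hsub : ((Finset.univ.image z : Finset (ℝ × ℝ)) : Set (ℝ × ℝ)) ⊆
          {y : ℝ × ℝ | tang α β ε (a + t) (z ⟨t, ht⟩) < tang α β ε (a + t) y ∨ y = z ⟨t, ht⟩} := by
        intro p hp
        obtain ⟨t', -, rfl⟩ := Finset.mem_image.1 (Finset.mem_coe.1 hp)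
        by_cases h : t' = ⟨t, ht⟩
        · right; rw [h]
        · left; exact hlt ⟨t, ht⟩ t' h
      rcases convexHull_min hsub (convex_gt_or _ _ _ _ _) hy with h | h
      · exact absurd h (not_lt.2 h1)
      · rw [h]
        exact Finset.mem_coe.2 (Finset.mem_image_of_mem _ (Finset.mem_univ _))
    · intro y hy
      refine ⟨subset_convexHull ℝ _ hy, ?_⟩
      obtain ⟨t, -, rfl⟩ := Finset.mem_image.1 (Finset.mem_coe.1 hy)
      exact hzS t

end Pool.Agent.P.MP_1ae9d9_co
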