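import Mathlib

/-!
The monochromatic Maker-Breaker `k`-hole game in the plane `ℝ × ℝ`.
-/

set_option autoImplicit false

open Classical

namespace Pool.Agent.P.MP_1ae9d9_co

/-- `S` is in general position: no three distinct points of `S` are collinear. -/
def GenPos (S : Finset (ℝ × ℝ)) : Prop :=
  ∀ a ∈ S, ∀ b ∈ S, ∀ c ∈ S, a ≠ b → a ≠ c → b ≠ c → ¬ Collinear ℝ {a, b, c}

/-- `p` is a legal move in position `S`: a new point keeping general position. -/
def Legal (S : Finset (ℝ × ℝ)) (p : ℝ × ℝ) : Prop :=
  p ∉ S ∧ GenPos (insert p S)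

/-- `S` contains a `k`-hole: `k` points of `S` in convex position whose convex hull contains
no other point of `S`. -/
def HasHole (k : ℕ) (S : Finset (ℝ × ℝ)) : Prop :=
  ∃ H : Finset (ℝ × ℝ), H ⊆ S ∧ H.card = k ∧
    ConvexIndependent ℝ (Subtype.val : ↥(H : Set (ℝ × ℝ)) → ℝ × ℝ) ∧
    convexHull ℝ (H : Set (ℝ × ℝ)) ∩ (S : Set (ℝ × ℝ)) = (H : Set (ℝ × ℝ))

/-- `MakerWins k r S`: in position `S`, with Maker to move, Maker can force that a `k`-hole is
present at some moment within the next `r` rounds (a round is a point of Maker followed by a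
point of Breaker). -/
def MakerWins (k : ℕ) : ℕ → Finset (ℝ × ℝ) → Prop
  | 0, S => HasHole k S
  | r + 1, S => HasHole k S ∨ ∃ p, Legal S p ∧ (HasHole k (insert p S) ∨
      ∀ q, Legal (insert p S) q → MakerWins k r (insert q (insert p S)))

/-- `r(k)`: the least number of rounds within which Maker can force a `k`-hole, starting from the
empty plane. -/
noncomputable def rounds (k : ℕ) : ℕ :=
  sInf {r | MakerWins k r ∅}

end Pool.Agent.P.MP_1ae9d9_co
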