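import Pool.Agent.P.MP_1ae9d9_co.Defs

/-!
Legal moves exist in every nonempty open set; a non-adaptive strategy for Maker.
-/

set_option autoImplicit false

open Classical MeasureTheory

namespace Pool.Agent.P.MP_1ae9d9_co

theorem line_ne_top (a b : ℝ × ℝ) : line[ℝ, a, b] ≠ ⊤ := by
  intro h
  have h1 : (a + (1, 0)) ∈ line[ℝ, a, b] := by rw [h]; trivial
  have h2 : (a + (0, 1)) ∈ line[ℝ, a, b] := by rw [h]; trivial
  rw [mem_affineSpan_pair_iff_exists_lineMap_eq] at h1 h2
  obtain ⟨r, hr⟩ := h1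
  obtain ⟨t, ht⟩ := h2
  rw [AffineMap.lineMap_apply] at hr ht
  have e1 := congrArg Prod.fst hr
  have e2 := congrArg Prod.snd hr
  have e3 := congrArg Prod.fst ht
  have e4 := congrArg Prod.snd ht
  simp only [vsub_eq_sub, vadd_eq_add, Prod.fst_add, Prod.snd_add, Prod.smul_fst, Prod.smul_snd,
    Prod.fst_sub, Prod.snd_sub, smul_eq_mul] at e1 e2 e3 e4
  have f1 : r * (b.1 - a.1) = 1 := by linarith
  have f2 : r * (b.2 - a.2) = 0 := by linarith
  have f3 : t * (b.1 - a.1) = 0 := by linarith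
  have f4 : t * (b.2 - a.2) = 1 := by linarith
  have : (r * (b.1 - a.1)) * (t * (b.2 - a.2)) = (r * (b.2 - a.2)) * (t * (b.1 - a.1)) := by ring
  rw [f1, f2, f3, f4] at this
  norm_num at this

theorem exists_legal {S : Finset (ℝ × ℝ)} (hS : GenPos S) {U : Set (ℝ × ℝ)} (hU : IsOpen U)
    (hne : U.Nonempty) : ∃ p ∈ U, Legal S p := by
  set B : Set (ℝ × ℝ) := ⋃ a ∈ S, ⋃ b ∈ S, (line[ℝ, a, b] : Set (ℝ × ℝ)) with hB
  have hnull : volume B = 0 := by
    rw [hB]
    refine (measure_biUnion_null_iff S.countable_toSet).2 fun a _ => ?_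
    refine (measure_biUnion_null_iff S.countable_toSet).2 fun b _ => ?_
    exact Measure.addHaar_affineSubspace volume _ (line_ne_top a b)
  have hpos : volume U ≠ 0 := (hU.measure_pos volume hne).ne'
  have hns : ¬ U ⊆ B := fun h => hpos (measure_mono_null h hnull)
  obtain ⟨p, hpU, hpB⟩ := Set.not_subset.1 hns
  have key : ∀ a ∈ S, ∀ b ∈ S, p ∉ line[ℝ, a, b] := by
    intro a ha b hb hp
    apply hpB
    rw [hB]
    simp only [Set.mem_iUnion]
    exact ⟨a, ha, b, hb, hp⟩
  have hpS : p ∉ S := fun h => key p h p h (left_mem_affineSpan_pair ℝ p p)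
  have hcol : ∀ a ∈ S, ∀ b ∈ S, a ≠ b → ∀ T : Set (ℝ × ℝ), a ∈ T → b ∈ T → p ∈ T →
      ¬ Collinear ℝ T := by
    intro a ha b hb hab T haT hbT hpT hc
    exact key a ha b hb (hc.mem_affineSpan_of_mem_of_ne haT hbT hpT hab)
  refine ⟨p, hpU, hpS, ?_⟩
  intro a ha b hb c hc hab hac hbc
  rw [Finset.mem_insert] at ha hb hc
  rcases ha with rfl | ha
  · rcases hb with rfl | hb
    · exact absurd rfl hab
    · rcases hc with rfl | hc
      · exact absurd rfl hac
      · exact hcol b hb c hc hbc _ (by simp) (by simp) (by simp)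
  · rcases hb with rfl | hb
    · rcases hc with rfl | hc
      · exact absurd rfl hbc
      · exact hcol a ha c hc hac _ (by simp) (by simp) (by simp)
    · rcases hc with rfl | hc
      · exact hcol a ha b hb hab _ (by simp) (by simp) (by simp)
      · exact hS a ha b hb c hc hab hac hbc

theorem wins_aux (k : ℕ) {X : Type} [Fintype X] (U : X → Set (ℝ × ℝ))
    (hU : ∀ x, IsOpen (U x)) (hne : ∀ x, (U x).Nonempty)
    (h : ∀ S : Finset (ℝ × ℝ), S.card ≤ 2 * Fintype.card X → (∀ x, ∃ p ∈ S, p ∈ U x) →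
      HasHole k S) (T : Finset X) :
    ∀ S : Finset (ℝ × ℝ), GenPos S → S.card + 2 * T.card ≤ 2 * Fintype.card X →
      (∀ x, x ∉ T → ∃ p ∈ S, p ∈ U x) → MakerWins k T.card S := by
  induction T using Finset.induction_on with
  | empty =>
    intro S _ hc hx
    simp only [Finset.card_empty, MakerWins]
    exact h S (by simpa using hc) fun x => hx x (by simp)
  | insert x T hxT ih =>
    intro S hS hc hx
    rw [Finset.card_insert_of_notMem hxT] at hc ⊢
    obtain ⟨p, hpU, hp⟩ := exists_legal hS (hU x) (hne x)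
    refine Or.inr ⟨p, hp, Or.inr fun q hq => ih _ hq.2 ?_ ?_⟩
    · rw [Finset.card_insert_of_notMem hq.1, Finset.card_insert_of_notMem hp.1]
      omega
    · intro y hy
      by_cases hyx : y = x
      · exact ⟨p, by simp, hyx ▸ hpU⟩
      · obtain ⟨p', hp', hp'U⟩ := hx y (by simp [hyx, hy])
        exact ⟨p', by simp [hp'], hp'U⟩

/-- Non-adaptive strategy: Maker plays one legal point in each of the open sets `U x`. -/
theorem wins_of_open (k : ℕ) {X : Type} [Fintype X] (U : X → Set (ℝ × ℝ))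
    (hU : ∀ x, IsOpen (U x)) (hne : ∀ x, (U x).Nonempty)
    (h : ∀ S : Finset (ℝ × ℝ), S.card ≤ 2 * Fintype.card X → (∀ x, ∃ p ∈ S, p ∈ U x) →
      HasHole k S) : MakerWins k (Fintype.card X) ∅ := by
  have := wins_aux k U hU hne h Finset.univ ∅ (by intro a ha; simp at ha) (by simp)
    (by intro x hx; simp at hx)
  simpa using this

end Pool.Agent.P.MP_1ae9d9_co
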