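import Pool.Agent.P.MP_1ae9d9_co.Grid

/-!
A generic projection, and the bound: every point of the plane is relevant to at most two lines.
-/

set_option autoImplicit false

open Classical Filter Topology

namespace Pool.Agent.P.MP_1ae9d9_co

variable {s k : ℕ}

theorem exists_common {σ ι : Type} [Fintype ι] (P : ι → MvPolynomial σ ℝ) :
    ∃ μ : σ → ℝ, ∀ i, (∃ μ', MvPolynomial.eval μ' (P i) ≠ 0) → MvPolynomial.eval μ (P i) ≠ 0 := by
  set T := Finset.univ.filter fun i => P i ≠ 0 with hT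
  have h1 : ∏ i ∈ T, P i ≠ 0 := Finset.prod_ne_zero_iff.2 fun i hi => (Finset.mem_filter.1 hi).2
  have h2 : ∃ μ : σ → ℝ, MvPolynomial.eval μ (∏ i ∈ T, P i) ≠ 0 := by
    by_contra h
    push Not at h
    exact h1 (MvPolynomial.funext fun μ => by rw [h μ, map_zero])
  obtain ⟨μ, hμ⟩ := h2
  rw [map_prod, Finset.prod_ne_zero_iff] at hμ
  refine ⟨μ, fun i ⟨μ', hi⟩ => hμ i (Finset.mem_filter.2 ⟨Finset.mem_univ _, fun h => hi ?_⟩)⟩
  rw [h, map_zero]

noncomputable def linP (y : Crd s → ℝ) : MvPolynomial (Crd s) ℝ :=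
  ∑ p, MvPolynomial.C (y p) * MvPolynomial.X p

theorem eval_linP (μ y : Crd s → ℝ) : MvPolynomial.eval μ (linP y) = lin μ y := by
  simp only [linP, lin, map_sum, map_mul, MvPolynomial.eval_C, MvPolynomial.eval_X]

theorem exists_lin_ne {y y' : Crd s → ℝ} (h : y ≠ y') : ∃ μ, lin μ (y - y') ≠ 0 := by
  obtain ⟨p, hp⟩ := Function.ne_iff.1 h
  exact ⟨Pi.single p 1, by rw [lin_single]; exact sub_ne_zero.2 hp⟩

noncomputable def det3 (μ : Crd s → ℝ) (l₁ l₂ l₃ : Ln s k) : ℝ :=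
  lin μ (base l₁ - base l₂) * lin μ (dir l₁.1 - dir l₃.1) -
    lin μ (base l₁ - base l₃) * lin μ (dir l₁.1 - dir l₂.1)

theorem exists_generic (s k : ℕ) : ∃ μ : Crd s → ℝ, ∀ l₁ l₂ l₃ : Ln s k,
    (base l₁ ≠ base l₂ → lin μ (base l₁ - base l₂) ≠ 0) ∧
    (dir l₁.1 ≠ dir l₂.1 → lin μ (dir l₁.1 - dir l₂.1) ≠ 0) ∧
    ((∃ μ', det3 μ' l₁ l₂ l₃ ≠ 0) → det3 μ l₁ l₂ l₃ ≠ 0) := by
  obtain ⟨μ, hμ⟩ := exists_common (ι := Fin 3 × Ln s k × Ln s k × Ln s k) fun w =>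
    ![linP (base w.2.1 - base w.2.2.1), linP (dir w.2.1.1 - dir w.2.2.1.1),
      linP (base w.2.1 - base w.2.2.1) * linP (dir w.2.1.1 - dir w.2.2.2.1) -
        linP (base w.2.1 - base w.2.2.2) * linP (dir w.2.1.1 - dir w.2.2.1.1)] w.1
  refine ⟨μ, fun l₁ l₂ l₃ => ⟨fun h => ?_, fun h => ?_, fun h => ?_⟩⟩
  · have := hμ (0, l₁, l₂, l₃)
    simp only [Matrix.cons_val_zero, eval_linP] at this
    exact this (exists_lin_ne h)
  · have := hμ (1, l₁, l₂, l₃)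
    simp only [Matrix.cons_val_one, Matrix.cons_val_zero, eval_linP] at this
    exact this (exists_lin_ne h)
  · have := hμ (2, l₁, l₂, l₃)
    simp only [Matrix.cons_val_two, Matrix.tail_cons, Matrix.head_cons, map_sub, map_mul,
      eval_linP] at this
    exact this h

theorem exists_minor {e₁ e₂ e₃ : Fin s × Fin s} (h12 : e₁ ≠ e₂) (h13 : e₁ ≠ e₃) (h23 : e₂ ≠ e₃) :
    ∃ p q, (dir e₁ - dir e₂) p * (dir e₁ - dir e₃) q -
      (dir e₁ - dir e₂) q * (dir e₁ - dir e₃) p ≠ 0 := by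
  by_contra hcon
  push Not at hcon
  simp only [Pi.sub_apply] at hcon
  have k1 : ∀ p, dir e₁ p = 1 → dir e₂ p = 0 → dir e₃ p = 0 → False := by
    intro p a b c
    apply h23
    apply dir_inj
    funext q
    have := hcon p q
    rw [a, b, c] at this
    linarith
  have k2 : ∀ p, dir e₁ p = 0 → dir e₂ p = 1 → dir e₃ p = 0 → False := by
    intro p a b c
    apply h13
    apply dir_inj
    funext q
    have := hcon p q
    rw [a, b, c] at this
    linarith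
  have k3 : ∀ p, dir e₁ p = 0 → dir e₂ p = 0 → dir e₃ p = 1 → False := by
    intro p a b c
    apply h12
    apply dir_inj
    funext q
    have := hcon p q
    rw [a, b, c] at this
    linarith
  obtain ⟨i₁, j₁⟩ := e₁
  obtain ⟨i₂, j₂⟩ := e₂
  obtain ⟨i₃, j₃⟩ := e₃
  have hi : i₁ = i₂ ∧ i₁ = i₃ := by
    by_cases a : i₁ = i₂
    · by_cases b : i₁ = i₃
      · exact ⟨a, b⟩
      · exact (k3 (Sum.inl i₃) (by simp [dir, Ne.symm b]) (by simp [dir, ← a, Ne.symm b])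
          (by simp [dir])).elim
    · by_cases b : i₁ = i₃
      · exact (k2 (Sum.inl i₂) (by simp [dir, Ne.symm a]) (by simp [dir])
          (by simp [dir, ← b, Ne.symm a])).elim
      · exact (k1 (Sum.inl i₁) (by simp [dir]) (by simp [dir, a]) (by simp [dir, b])).elim
  have hj : j₁ = j₂ := by
    by_cases a : j₁ = j₂
    · exact a
    · by_cases b : j₁ = j₃
      · exact (k2 (Sum.inr j₂) (by simp [dir, Ne.symm a]) (by simp [dir])
          (by simp [dir, ← b, Ne.symm a])).elim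
      · exact (k1 (Sum.inr j₁) (by simp [dir]) (by simp [dir, a]) (by simp [dir, b])).elim
  exact h12 (Prod.ext hi.1 hj)

theorem prop_of_det {A B A' B' : Crd s → ℝ} {p q : Crd s} (hm : A' p * B' q - A' q * B' p ≠ 0)
    (h : ∀ μ, lin μ A * lin μ B' - lin μ B * lin μ A' = 0) : ∃ c : ℝ, A = c • A' ∧ B = c • B' := by
  set Δ := A' p * B' q - A' q * B' p with hΔ
  set μ₁ : Crd s → ℝ := (B' q / Δ) • Pi.single p 1 + (-B' p / Δ) • Pi.single q 1 with hμ₁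
  set μ₂ : Crd s → ℝ := (A' p / Δ) • Pi.single q 1 + (-A' q / Δ) • Pi.single p 1 with hμ₂
  have a1 : lin μ₁ A' = 1 := by
    rw [hμ₁, lin_add_left, lin_smul_left, lin_smul_left, lin_single, lin_single]
    field_simp; rw [hΔ]; ring
  have a2 : lin μ₁ B' = 0 := by
    rw [hμ₁, lin_add_left, lin_smul_left, lin_smul_left, lin_single, lin_single]
    field_simp; ring
  have b1 : lin μ₂ A' = 0 := by
    rw [hμ₂, lin_add_left, lin_smul_left, lin_smul_left, lin_single, lin_single]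
    field_simp; ring
  have b2 : lin μ₂ B' = 1 := by
    rw [hμ₂, lin_add_left, lin_smul_left, lin_smul_left, lin_single, lin_single]
    field_simp; rw [hΔ]; ring
  have c2 : lin μ₂ A = 0 := by have := h μ₂; rw [b1, b2] at this; linarith
  have c1 : lin μ₁ B = 0 := by have := h μ₁; rw [a1, a2] at this; linarith
  have hA : A = lin μ₂ B • A' := by
    funext r
    have e1 := h (Pi.single r 1 + μ₂)
    have e2 := h (Pi.single r 1)
    simp only [lin_add_left, lin_single, b1, b2, c2] at e1 e2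
    simp only [Pi.smul_apply, smul_eq_mul]
    linarith
  have hB : B = lin μ₁ A • B' := by
    funext r
    have e1 := h (Pi.single r 1 + μ₁)
    have e2 := h (Pi.single r 1)
    simp only [lin_add_left, lin_single, a1, a2, c1] at e1 e2
    simp only [Pi.smul_apply, smul_eq_mul]
    linarith
  refine ⟨lin μ₂ B, hA, ?_⟩
  have : lin μ₁ A = lin μ₂ B := by
    conv_lhs => rw [hA]
    rw [lin_smul, a1, mul_one]
  rw [← this]; exact hB

theorem concurrent {l₁ l₂ l₃ : Ln s k} (h12 : l₁.1 ≠ l₂.1) (h13 : l₁.1 ≠ l₃.1)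
    (h23 : l₂.1 ≠ l₃.1) (h : ∀ μ, det3 μ l₁ l₂ l₃ = 0) :
    ∃ (ζ : ℝ) (n : ℤ), ζ = st l₃ + n ∧ base l₁ + ζ • dir l₁.1 = base l₃ + ζ • dir l₃.1 ∧
      base l₂ + ζ • dir l₂.1 = base l₃ + ζ • dir l₃.1 := by
  obtain ⟨p, q, hm⟩ := exists_minor h12 h13 h23
  obtain ⟨c, hA, hB⟩ := prop_of_det hm h
  have e13 : base l₁ + (-c) • dir l₁.1 = base l₃ + (-c) • dir l₃.1 := by
    funext r
    have := congrFun hB r
    simp only [Pi.sub_apply, Pi.smul_apply, smul_eq_mul, Pi.add_apply] at this ⊢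
    linarith
  have e12 : base l₁ + (-c) • dir l₁.1 = base l₂ + (-c) • dir l₂.1 := by
    funext r
    have := congrFun hA r
    simp only [Pi.sub_apply, Pi.smul_apply, smul_eq_mul, Pi.add_apply] at this ⊢
    linarith
  have hp : ∃ r, dir l₃.1 r = 1 ∧ dir l₁.1 r = 0 := by
    by_cases a : l₃.1.1 = l₁.1.1
    · have b : l₃.1.2 ≠ l₁.1.2 := fun b => h13 (Prod.ext a b).symm
      exact ⟨Sum.inr l₃.1.2, by simp [dir], by simp [dir, b]⟩
    · exact ⟨Sum.inl l₃.1.1, by simp [dir], by simp [dir, a]⟩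
  obtain ⟨r, r3, r1⟩ := hp
  refine ⟨-c, (embN l₁.2 r : ℤ) - (embN l₃.2 r : ℤ), ?_, e13, e12 ▸ e13⟩
  have := congrFun e13 r
  simp only [base, emb, Pi.add_apply, Pi.smul_apply, smul_eq_mul, r1, r3] at this
  push_cast
  linarith

/-- Relevance of a point to a grid line. -/
def RelL (μ : Crd s → ℝ) (θ η : ℝ) (l : Ln s k) (z : ℝ × ℝ) : Prop :=
  Rel k (st l) (alp μ l η) (bet μ l η) (η ^ rk l.1) θ ((s : ℝ) * k + k) z

theorem exists_config (s k : ℕ) {θ : ℝ} (hθ : 0 < θ) : ∃ (μ : Crd s → ℝ) (η : ℝ), 0 < η ∧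
    ∀ z, (Finset.univ.filter fun l : Ln s k => Good l ∧ RelL μ θ η l z).card ≤ 2 := by
  obtain ⟨μ, hμ⟩ := exists_generic s k
  have E1 : ∀ w : Ln s k × Ln s k, ∀ᶠ η in 𝓝[>] (0 : ℝ), Good w.1 → Good w.2 → w.1.1 = w.2.1 →
      w.1 ≠ w.2 → ∀ z, RelL μ θ η w.1 z → ¬ RelL μ θ η w.2 z := by
    rintro ⟨l₁, l₂⟩
    by_cases hc : Good l₁ ∧ Good l₂ ∧ l₁.1 = l₂.1 ∧ l₁ ≠ l₂
    · obtain ⟨g1, g2, he, hne⟩ := hc
      have hA := (hμ l₁ l₂ l₁).1 (base_ne g1 g2 he hne)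
      rw [lin_sub] at hA
      have b2 := bet_tendsto μ l₂
      rw [← he] at b2
      have := par_ev (a₂ := st l₂) (st_nonneg l₁) (st_le l₁) (alp_tendsto μ l₁) (alp_tendsto μ l₂)
        (bet_tendsto μ l₁) b2 (pow_tendsto (rk_ne_zero l₁.1)) (pow_tendsto (rk_ne_zero l₂.1)) hA
      filter_upwards [this] with η hη _ _ _ _ z h1 h2
      exact hη z h1.1 h2.1
    · filter_upwards with η g1 g2 he hne
      exact absurd ⟨g1, g2, he, hne⟩ hc
  have E2 : ∀ w : Ln s k × Ln s k × Ln s k, ∀ᶠ η in 𝓝[>] (0 : ℝ), w.1.1 ≠ w.2.1.1 →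
      rk w.2.2.1 < rk w.1.1 → rk w.2.2.1 < rk w.2.1.1 →
      ∀ z, RelL μ θ η w.1 z → RelL μ θ η w.2.1 z → ¬ RelL μ θ η w.2.2 z := by
    rintro ⟨l₁, l₂, l₃⟩
    by_cases hc : l₁.1 ≠ l₂.1 ∧ rk l₃.1 < rk l₁.1 ∧ rk l₃.1 < rk l₂.1
    · obtain ⟨h12, r1, r2⟩ := hc
      have h13 : l₁.1 ≠ l₃.1 := fun h => by rw [h] at r1; omega
      have h23 : l₂.1 ≠ l₃.1 := fun h => by rw [h] at r2; omega
      by_cases hd : ∃ μ', det3 μ' l₁ l₂ l₃ ≠ 0
      · have hD := (hμ l₁ l₂ l₃).2.2 hd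
        unfold det3 at hD
        simp only [lin_sub] at hD
        have := tri_ev (k := k) (a₁ := st l₁) (a₂ := st l₂) (a₃ := st l₃) (Λ := (s : ℝ) * k + k)
          (alp_tendsto μ l₁) (alp_tendsto μ l₂) (alp_tendsto μ l₃)
          (bet_tendsto μ l₁) (bet_tendsto μ l₂) (bet_tendsto μ l₃)
          (pow_tendsto (rk_ne_zero l₁.1)) (pow_tendsto (rk_ne_zero l₂.1))
          (pow_tendsto (rk_ne_zero l₃.1)) hD
        filter_upwards [this] with η hη _ _ _ z h1 h2 h3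
        exact hη z h1.1 h2.1 h3.1
      · push Not at hd
        obtain ⟨ζ, n, hζ, e13, e23⟩ := concurrent h12 h13 h23 hd
        have hB := (hμ l₁ l₂ l₃).2.1 fun h => h12 (dir_inj h)
        rw [lin_sub] at hB
        have p1 : ∀ η : ℝ, η ^ (rk l₁.1 - rk l₃.1) * η ^ rk l₃.1 = η ^ rk l₁.1 := fun η => by
          rw [← pow_add, Nat.sub_add_cancel r1.le]
        have p2 : ∀ η : ℝ, η ^ (rk l₂.1 - rk l₃.1) * η ^ rk l₃.1 = η ^ rk l₂.1 := fun η => by
          rw [← pow_add, Nat.sub_add_cancel r2.le]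
        have := conc_ev (k := k) (a₁ := st l₁) (a₂ := st l₂) (Λ := (s : ℝ) * k + k)
          (α₁ := alp μ l₁) (α₂ := alp μ l₂) (α₃ := alp μ l₃) hθ hζ
          (bet_tendsto μ l₁) (bet_tendsto μ l₂) (bet_tendsto μ l₃)
          (pow_tendsto (n := rk l₁.1 - rk l₃.1) (by omega))
          (pow_tendsto (n := rk l₂.1 - rk l₃.1) (by omega))
          (pow_tendsto (rk_ne_zero l₃.1))
          (by filter_upwards [self_mem_nhdsWithin] with η hη using pow_pos hη _) hB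
          (fun η => by rw [p1, ← height_line, ← height_line, e13])
          (fun η => by rw [p2, ← height_line, ← height_line, e23])
        filter_upwards [this] with η hη _ _ _ z h1 h2 h3
        simp only [p1, p2] at hη
        exact hη z h1.1 h2.1 h3
    · filter_upwards with η g1 g2 g3
      exact absurd ⟨g1, g2, g3⟩ hc
  obtain ⟨η, ⟨F1, F2⟩, hη⟩ := (((eventually_all.2 E1).and (eventually_all.2 E2)).and
    self_mem_nhdsWithin).exists
  refine ⟨μ, η, hη, fun z => ?_⟩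
  by_contra hcon
  obtain ⟨l₁, l₂, l₃, m1, m2, m3, n12, n13, n23⟩ := Finset.two_lt_card_iff.1 (not_le.1 hcon)
  obtain ⟨g1, z1⟩ := (Finset.mem_filter.1 m1).2
  obtain ⟨g2, z2⟩ := (Finset.mem_filter.1 m2).2
  obtain ⟨g3, z3⟩ := (Finset.mem_filter.1 m3).2
  have d12 : l₁.1 ≠ l₂.1 := fun h => F1 (l₁, l₂) g1 g2 h n12 z z1 z2
  have d13 : l₁.1 ≠ l₃.1 := fun h => F1 (l₁, l₃) g1 g3 h n13 z z1 z3
  have d23 : l₂.1 ≠ l₃.1 := fun h => F1 (l₂, l₃) g2 g3 h n23 z z2 z3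
  have r12 : rk l₁.1 ≠ rk l₂.1 := fun h => d12 (rk_inj h)
  have r13 : rk l₁.1 ≠ rk l₃.1 := fun h => d13 (rk_inj h)
  have r23 : rk l₂.1 ≠ rk l₃.1 := fun h => d23 (rk_inj h)
  have tri : (rk l₃.1 < rk l₁.1 ∧ rk l₃.1 < rk l₂.1) ∨ (rk l₂.1 < rk l₁.1 ∧ rk l₂.1 < rk l₃.1) ∨
      (rk l₁.1 < rk l₂.1 ∧ rk l₁.1 < rk l₃.1) := by omega
  rcases tri with ⟨a, b⟩ | ⟨a, b⟩ | ⟨a, b⟩
  · exact F2 (l₁, l₂, l₃) d12 a b z z1 z2 z3
  · exact F2 (l₁, l₃, l₂) d13 a b z z1 z3 z2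
  · exact F2 (l₂, l₃, l₁) d23 a b z z2 z3 z1

end Pool.Agent.P.MP_1ae9d9_co
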