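import Pool.Agent.P.MP_1ae9d9_co.Asym

/-!
The grid `[k]^s × [2k]^s`, the directions `e_i + e_j`, a generic linear projection and the
quadratic bending with separated scales.
-/

set_option autoImplicit false

open Classical Filter Topology

namespace Pool.Agent.P.MP_1ae9d9_co

abbrev Crd (s : ℕ) := Fin s ⊕ Fin s

abbrev Pt (s k : ℕ) := (Fin s → Fin k) × (Fin s → Fin (2 * k))

abbrev Ln (s k : ℕ) := (Fin s × Fin s) × Pt s k

variable {s k : ℕ}

def embN (x : Pt s k) : Crd s → ℕ := Sum.elim (fun i => (x.1 i : ℕ)) (fun j => (x.2 j : ℕ))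

def emb (x : Pt s k) : Crd s → ℝ := fun p => (embN x p : ℝ)

noncomputable def dir (e : Fin s × Fin s) : Crd s → ℝ :=
  Sum.elim (fun i => if i = e.1 then 1 else 0) (fun j => if j = e.2 then 1 else 0)

def lam (y : Crd s → ℝ) : ℝ := ∑ i, y (Sum.inl i)

def lin (μ y : Crd s → ℝ) : ℝ := ∑ p, y p * μ p

def rk (e : Fin s × Fin s) : ℕ := (finProdFinEquiv e : ℕ) + 1

def Qf (η : ℝ) (y : Crd s → ℝ) : ℝ :=
  ∑ i, ∑ j, η ^ rk (i, j) * y (Sum.inl i) * y (Sum.inr j)

def Bf (η : ℝ) (y : Crd s → ℝ) (e : Fin s × Fin s) : ℝ :=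
  ∑ j, η ^ rk (e.1, j) * y (Sum.inr j) + ∑ i, η ^ rk (i, e.2) * y (Sum.inl i)

theorem rk_inj {e e' : Fin s × Fin s} (h : rk e = rk e') : e = e' := by
  unfold rk at h
  exact finProdFinEquiv.injective (Fin.ext (by omega))

theorem lin_add (μ y y' : Crd s → ℝ) : lin μ (y + y') = lin μ y + lin μ y' := by
  simp [lin, add_mul, Finset.sum_add_distrib]

theorem lin_sub (μ y y' : Crd s → ℝ) : lin μ (y - y') = lin μ y - lin μ y' := by
  simp [lin, sub_mul, Finset.sum_sub_distrib]

theorem lin_smul (μ y : Crd s → ℝ) (c : ℝ) : lin μ (c • y) = c * lin μ y := by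
  simp only [lin, Finset.mul_sum, Pi.smul_apply, smul_eq_mul, mul_assoc]

theorem lin_add_left (μ μ' y : Crd s → ℝ) : lin (μ + μ') y = lin μ y + lin μ' y := by
  simp [lin, mul_add, Finset.sum_add_distrib]

theorem lin_smul_left (μ y : Crd s → ℝ) (c : ℝ) : lin (c • μ) y = c * lin μ y := by
  simp only [lin, Finset.mul_sum, Pi.smul_apply, smul_eq_mul]
  exact Finset.sum_congr rfl fun p _ => by ring

theorem lin_single (p : Crd s) (y : Crd s → ℝ) : lin (Pi.single p 1) y = y p := by
  simp [lin, Pi.single_apply]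

theorem lam_line (y : Crd s → ℝ) (e : Fin s × Fin s) (ζ : ℝ) :
    lam (y + ζ • dir e) = lam y + ζ := by
  simp [lam, dir, Finset.sum_add_distrib]

theorem Qf_line (η : ℝ) (y : Crd s → ℝ) (e : Fin s × Fin s) (ζ : ℝ) :
    Qf η (y + ζ • dir e) = Qf η y + Bf η y e * ζ + η ^ rk e * ζ ^ 2 := by
  obtain ⟨i₀, j₀⟩ := e
  have h : ∀ i j, η ^ rk (i, j) * (y + ζ • dir (i₀, j₀)) (Sum.inl i) *
      (y + ζ • dir (i₀, j₀)) (Sum.inr j) =
      η ^ rk (i, j) * y (Sum.inl i) * y (Sum.inr j) +
      (if i = i₀ then η ^ rk (i, j) * y (Sum.inr j) * ζ else 0) +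
      (if j = j₀ then η ^ rk (i, j) * y (Sum.inl i) * ζ else 0) +
      (if j = j₀ then (if i = i₀ then η ^ rk (i, j) * ζ ^ 2 else 0) else 0) := by
    intro i j
    simp only [dir, Pi.add_apply, Pi.smul_apply, Sum.elim_inl, Sum.elim_inr, smul_eq_mul]
    split_ifs <;> ring
  simp only [Qf, Bf, h, Finset.sum_add_distrib, Finset.sum_ite_eq', Finset.mem_univ, if_true,
    add_mul, Finset.sum_mul]
  rw [Finset.sum_comm (f := fun i j => if i = i₀ then η ^ rk (i, j) * y (Sum.inr j) * ζ else 0)]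
  simp only [Finset.sum_ite_eq', Finset.mem_univ, if_true]
  ring

noncomputable def st (l : Ln s k) : ℝ := lam (emb l.2)

noncomputable def base (l : Ln s k) : Crd s → ℝ := emb l.2 + (-st l) • dir l.1

noncomputable def alp (μ : Crd s → ℝ) (l : Ln s k) (η : ℝ) : ℝ := lin μ (base l) + Qf η (base l)

noncomputable def bet (μ : Crd s → ℝ) (l : Ln s k) (η : ℝ) : ℝ :=
  lin μ (dir l.1) + Bf η (base l) l.1

theorem height_line (μ : Crd s → ℝ) (l : Ln s k) (η ζ : ℝ) :
    lin μ (base l + ζ • dir l.1) + Qf η (base l + ζ • dir l.1) =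
      alp μ l η + bet μ l η * ζ + η ^ rk l.1 * ζ ^ 2 := by
  rw [lin_add, lin_smul, Qf_line, alp, bet]; ring

theorem lam_base_line (l : Ln s k) (ζ : ℝ) : lam (base l + ζ • dir l.1) = ζ := by
  rw [lam_line, base, lam_line, st]; ring

theorem pow_tendsto {n : ℕ} (hn : n ≠ 0) : Tendsto (fun η : ℝ => η ^ n) (𝓝[>] 0) (𝓝 0) := by
  have : Tendsto (fun η : ℝ => η ^ n) (𝓝 0) (𝓝 (0 ^ n)) := (continuous_pow n).tendsto 0
  rw [zero_pow hn] at this
  exact this.mono_left nhdsWithin_le_nhds

theorem rk_ne_zero (e : Fin s × Fin s) : rk e ≠ 0 := by unfold rk; omega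

theorem alp_tendsto (μ : Crd s → ℝ) (l : Ln s k) :
    Tendsto (alp μ l) (𝓝[>] 0) (𝓝 (lin μ (base l))) := by
  have : Tendsto (fun η => Qf η (base l)) (𝓝[>] 0) (𝓝 0) := by
    have h := tendsto_finsetSum (Finset.univ : Finset (Fin s)) fun i _ =>
      tendsto_finsetSum (Finset.univ : Finset (Fin s)) fun j _ =>
        ((pow_tendsto (rk_ne_zero (i, j))).mul_const (base l (Sum.inl i))).mul_const
          (base l (Sum.inr j))
    simpa [Qf] using h
  have h := this.const_add (lin μ (base l))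
  rw [add_zero] at h
  exact h

theorem bet_tendsto (μ : Crd s → ℝ) (l : Ln s k) :
    Tendsto (bet μ l) (𝓝[>] 0) (𝓝 (lin μ (dir l.1))) := by
  have : Tendsto (fun η => Bf η (base l) l.1) (𝓝[>] 0) (𝓝 0) := by
    have h1 := tendsto_finsetSum (Finset.univ : Finset (Fin s)) fun j _ =>
        ((pow_tendsto (rk_ne_zero (l.1.1, j))).mul_const (base l (Sum.inr j)))
    have h2 := tendsto_finsetSum (Finset.univ : Finset (Fin s)) fun i _ =>
        ((pow_tendsto (rk_ne_zero (i, l.1.2))).mul_const (base l (Sum.inl i)))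
    simpa [Bf] using h1.add h2
  have h := this.const_add (lin μ (dir l.1))
  rw [add_zero] at h
  exact h

theorem dir_inj {e e' : Fin s × Fin s} (h : dir e = dir e') : e = e' := by
  have h1 := congrFun h (Sum.inl e.1)
  have h2 := congrFun h (Sum.inr e.2)
  simp only [dir, Sum.elim_inl, Sum.elim_inr, if_true] at h1 h2
  apply Prod.ext
  · by_contra hc; simp [hc] at h1
  · by_contra hc; simp [hc] at h2

theorem emb_inj {x x' : Pt s k} (h : emb x = emb x') : x = x' := by
  apply Prod.ext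
  · funext i
    have := congrFun h (Sum.inl i)
    simp only [emb, embN, Sum.elim_inl, Nat.cast_inj] at this
    exact Fin.ext this
  · funext j
    have := congrFun h (Sum.inr j)
    simp only [emb, embN, Sum.elim_inr, Nat.cast_inj] at this
    exact Fin.ext this

/-- The line starts on the face `x_i = 0` and stays inside the box for `k` steps. -/
def Good (l : Ln s k) : Prop := (l.2.1 l.1.1 : ℕ) = 0 ∧ (l.2.2 l.1.2 : ℕ) < k

theorem base_ne {l l' : Ln s k} (hl : Good l) (hl' : Good l') (he : l.1 = l'.1) (hne : l ≠ l') :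
    base l ≠ base l' := by
  intro h
  have h1 := congrFun h (Sum.inl l.1.1)
  have a1 : (l'.2.1 l.1.1 : ℕ) = 0 := by rw [he]; exact hl'.1
  simp only [base, emb, embN, dir, Pi.add_apply, Pi.smul_apply, Sum.elim_inl, hl.1, a1, ← he,
    if_true, smul_eq_mul] at h1
  have h2 : st l = st l' := by linarith
  unfold base at h
  rw [h2, he] at h
  exact hne (Prod.ext he (emb_inj (add_right_cancel h)))

theorem exists_pt {l : Ln s k} (hl : Good l) {t : ℕ} (ht : t < k) :
    ∃ x : Pt s k, emb x = base l + (st l + t) • dir l.1 := by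
  have h2 := hl.2
  refine ⟨(Function.update l.2.1 l.1.1 ⟨t, ht⟩,
    Function.update l.2.2 l.1.2 ⟨l.2.2 l.1.2 + t, by omega⟩), ?_⟩
  funext p
  rcases p with i | j
  · by_cases h : i = l.1.1
    · subst h
      simp [emb, embN, base, dir, hl.1]
    · simp [emb, embN, base, dir, h]
  · by_cases h : j = l.1.2
    · subst h
      simp [emb, embN, base, dir]
    · simp [emb, embN, base, dir, h]

theorem st_nonneg (l : Ln s k) : 0 ≤ st l := by
  unfold st lam
  exact Finset.sum_nonneg fun _ _ => by simp [emb]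

theorem st_le (l : Ln s k) : st l + k ≤ (s : ℝ) * k + k := by
  have : st l ≤ ∑ _i : Fin s, (k : ℝ) := by
    unfold st lam
    refine Finset.sum_le_sum fun i _ => ?_
    simp only [emb, embN, Sum.elim_inl, Nat.cast_le]
    exact (l.2.1 i).2.le
  simp only [Finset.sum_const, Finset.card_univ, Fintype.card_fin, nsmul_eq_mul] at this
  linarith

end Pool.Agent.P.MP_1ae9d9_co
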