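import Pool.Agent.P.MP_1ae9d9_co.Generic
import Pool.Agent.P.MP_1ae9d9_co.Game

/-!
Maker wins within `(2k²)^(⌊√(8k)⌋+1)` rounds.
-/

set_option autoImplicit false

open Classical Filter Topology

namespace Pool.Agent.P.MP_1ae9d9_co

variable {s k : ℕ}

theorem card_good (s k : ℕ) (hk : 0 < k) :
    s * s * Fintype.card (Pt s k) ≤
      (Finset.univ.filter fun l : Ln s k => Good l).card * (2 * k) := by
  let g : Ln s k → {l : Ln s k // Good l} × Fin k × Fin 2 := fun l =>
    (⟨(l.1, (Function.update l.2.1 l.1.1 ⟨0, hk⟩,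
        Function.update l.2.2 l.1.2 ⟨l.2.2 l.1.2 % k, by
          have := Nat.mod_lt (l.2.2 l.1.2) hk; omega⟩)), by
        simp only [Good, Function.update_self]
        exact ⟨trivial, Nat.mod_lt _ hk⟩⟩,
      l.2.1 l.1.1, ⟨l.2.2 l.1.2 / k, by
        rw [Nat.div_lt_iff_lt_mul hk]; exact (l.2.2 l.1.2).2⟩)
  have hg : Function.Injective g := by
    rintro ⟨e, x⟩ ⟨e', x'⟩ h
    simp only [g, Prod.mk.injEq, Subtype.mk.injEq, Fin.mk.injEq] at h
    obtain ⟨⟨he, h1, h2⟩, h3, h4⟩ := h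
    subst he
    refine Prod.ext rfl (Prod.ext ?_ ?_)
    · funext i
      by_cases hi : i = e.1
      · rw [hi]; exact h3
      · have := congrFun h1 i
        simpa [Function.update_of_ne hi] using this
    · funext j
      by_cases hj : j = e.2
      · rw [hj]
        have := congrFun h2 e.2
        simp only [Function.update_self, Fin.mk.injEq] at this
        apply Fin.ext
        show (x.2 e.2 : ℕ) = x'.2 e.2
        rw [← Nat.div_add_mod (x.2 e.2) k, ← Nat.div_add_mod (x'.2 e.2) k, h4, this]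
      · have := congrFun h2 j
        simpa [Function.update_of_ne hj] using this
  have := Fintype.card_le_of_injective g hg
  simp only [Fintype.card_prod, Fintype.card_fin, Fintype.card_subtype] at this ⊢
  calc _ ≤ _ := this
    _ = _ := by ring

theorem card_pt (s k : ℕ) : Fintype.card (Pt s k) = (2 * k ^ 2) ^ s := by
  simp only [Fintype.card_prod, Fintype.card_fun, Fintype.card_fin]
  rw [← mul_pow]; congr 1; ring

theorem wins_grid (s k : ℕ) (hk : 0 < k) (hs : 8 * k < s * s) :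
    MakerWins k ((2 * k ^ 2) ^ s) ∅ := by
  set Λ : ℝ := (s : ℝ) * k + k with hΛ
  have hΛ0 : 0 ≤ Λ := by positivity
  set θ : ℝ := 1 / (2 * (1 + 2 * Λ)) with hθ
  have hθ0 : 0 < θ := by positivity
  have hθΛ : θ * (1 + 2 * Λ) ≤ 1 / 2 := by rw [hθ]; field_simp; rfl
  obtain ⟨μ, η, hη, hrel⟩ := exists_config s k hθ0
  rw [← card_pt]
  let U : Pt s k → Set (ℝ × ℝ) := fun x => ⋂ w : Ln s k × Fin k,
    {z | emb x = base w.1 + (st w.1 + (w.2 : ℕ)) • dir w.1.1 →
      Near (alp μ w.1 η) (bet μ w.1 η) (η ^ rk w.1.1) θ (st w.1 + (w.2 : ℕ)) z}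
  refine wins_of_open k U ?_ ?_ ?_
  · intro x
    refine isOpen_iInter_of_finite fun w => ?_
    by_cases h : emb x = base w.1 + (st w.1 + (w.2 : ℕ)) • dir w.1.1
    · simp only [h, forall_true_left, Near, off]
      rw [Set.ofPred_and]
      refine IsOpen.inter (isOpen_lt ?_ ?_) (isOpen_lt ?_ ?_) <;> fun_prop
    · simp [h]
  · intro x
    refine ⟨(lam (emb x), lin μ (emb x) + Qf η (emb x)), Set.mem_iInter.2 fun w h => ?_⟩
    rw [h, height_line, lam_base_line]
    refine ⟨by simpa using hθ0, ?_⟩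
    have : off (alp μ w.1 η) (bet μ w.1 η) (st w.1 + (w.2 : ℕ), alp μ w.1 η +
        bet μ w.1 η * (st w.1 + (w.2 : ℕ)) + η ^ rk w.1.1 * (st w.1 + (w.2 : ℕ)) ^ 2) -
        η ^ rk w.1.1 * (st w.1 + (w.2 : ℕ)) ^ 2 = 0 := by unfold off; ring
    rw [this, abs_zero]
    positivity
  · intro S hS hU
    have hex : ∃ l : Ln s k, Good l ∧ ∀ p ∈ S, ¬ RelL μ θ η l p := by
      by_contra hcon
      push Not at hcon
      have hsub : (Finset.univ.filter fun l : Ln s k => Good l) ⊆
          S.biUnion fun z => Finset.univ.filter fun l : Ln s k => Good l ∧ RelL μ θ η l z := by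
        intro l hl
        have hg := (Finset.mem_filter.1 hl).2
        obtain ⟨p, hp, hr⟩ := hcon l hg
        exact Finset.mem_biUnion.2 ⟨p, hp, Finset.mem_filter.2 ⟨Finset.mem_univ _, hg, hr⟩⟩
      have h1 := (Finset.card_le_card hsub).trans
        (Finset.card_biUnion_le_card_mul S _ 2 fun z _ => hrel z)
      have h2 := card_good s k hk
      have h3 : 0 < Fintype.card (Pt s k) := by rw [card_pt]; positivity
      have h4 : 8 * k * Fintype.card (Pt s k) < s * s * Fintype.card (Pt s k) :=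
        Nat.mul_lt_mul_of_pos_right hs h3
      have h5 : (Finset.univ.filter fun l : Ln s k => Good l).card * (2 * k) ≤
          (2 * Fintype.card (Pt s k) * 2) * (2 * k) :=
        Nat.mul_le_mul_right _ (h1.trans (Nat.mul_le_mul_right _ hS))
      nlinarith
    obtain ⟨l, hl, hclean⟩ := hex
    refine hole_of_clean (pow_pos hη (rk l.1)) (st_nonneg l) (st_le l) hθΛ S ?_ hclean
    intro t ht
    obtain ⟨x, hx⟩ := exists_pt hl ht
    obtain ⟨p, hp, hpU⟩ := hU x
    exact ⟨p, hp, Set.mem_iInter.1 hpU (l, ⟨t, ht⟩) hx⟩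

theorem wins_upper (k : ℕ) (hk : 0 < k) :
    MakerWins k ((2 * k ^ 2) ^ (Nat.sqrt (8 * k) + 1)) ∅ :=
  wins_grid _ k hk (Nat.lt_succ_sqrt (8 * k))

theorem bound_subexp {c : ℝ} (hc : 1 < c) :
    ∀ᶠ k : ℕ in atTop, (((2 * k ^ 2) ^ (Nat.sqrt (8 * k) + 1) : ℕ) : ℝ) < c ^ k := by
  have hl : 0 < Real.log c := Real.log_pos hc
  have h1 := (isLittleO_log_rpow_atTop (by norm_num : (0 : ℝ) < 1 / 2)).bound
    (by positivity : 0 < Real.log c / 13)
  have h2 := tendsto_natCast_atTop_atTop (R := ℝ) |>.eventually h1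
  filter_upwards [h2, eventually_ge_atTop 2] with k hk hk2
  have hk0 : (2 : ℝ) ≤ k := by exact_mod_cast hk2
  have hkpos : (0 : ℝ) < k := by linarith
  have hlogk : 0 < Real.log k := Real.log_pos (by linarith)
  rw [Real.norm_of_nonneg hlogk.le, Real.norm_of_nonneg (by positivity), ← Real.sqrt_eq_rpow] at hk
  have hsq : 1 ≤ Real.sqrt k := Real.one_le_sqrt.2 (by linarith)
  have hss : Real.sqrt k * Real.sqrt k = k := Real.mul_self_sqrt hkpos.le
  have hn : ((Nat.sqrt (8 * k) + 1 : ℕ) : ℝ) ≤ 4 * Real.sqrt k := by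
    have a : ((Nat.sqrt (8 * k) : ℕ) : ℝ) * (Nat.sqrt (8 * k) : ℕ) ≤ 8 * k := by
      exact_mod_cast Nat.sqrt_le (8 * k)
    have b : ((Nat.sqrt (8 * k) : ℕ) : ℝ) ≤ 3 * Real.sqrt k := by
      by_contra hcon
      have := not_le.1 hcon
      nlinarith
    push_cast
    linarith
  have hb : Real.log (2 * (k : ℝ) ^ 2) ≤ 3 * Real.log k := by
    have : (2 * (k : ℝ) ^ 2) ≤ (k : ℝ) ^ 3 := by nlinarith
    calc _ ≤ Real.log ((k : ℝ) ^ 3) := Real.log_le_log (by positivity) this
      _ = _ := by rw [Real.log_pow]; norm_num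
  have hb0 : 0 ≤ Real.log (2 * (k : ℝ) ^ 2) := Real.log_nonneg (by nlinarith)
  rw [← Real.log_lt_log_iff (by positivity) (by positivity)]
  push_cast
  rw [Real.log_pow, Real.log_pow]
  calc ((Nat.sqrt (8 * k) + 1 : ℕ) : ℝ) * Real.log (2 * (k : ℝ) ^ 2)
      ≤ (4 * Real.sqrt k) * (3 * Real.log k) := mul_le_mul hn hb hb0 (by positivity)
    _ ≤ (4 * Real.sqrt k) * (3 * (Real.log c / 13 * Real.sqrt k)) := by gcongr
    _ = 12 / 13 * ((Real.sqrt k * Real.sqrt k) * Real.log c) := by ring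
    _ = 12 / 13 * (k * Real.log c) := by rw [hss]
    _ < k * Real.log c := by
      have : 0 < k * Real.log c := by positivity
      linarith

end Pool.Agent.P.MP_1ae9d9_co
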